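import Mathlib

namespace Pool.Agent.Results.MP_de689f_co.C4

open SimpleGraph

variable {V : Type}

/-- `β` arises from `α` by exchanging `a` and `b` on the Kempe chain through `x` -/
def KempeChange {G : SimpleGraph V} {m : ℕ} (α β : G.Coloring (Fin m)) : Prop :=
  ∃ (a b : Fin m) (x : {v // α v = a ∨ α v = b}), a ≠ b ∧ ∀ v,
    ((∃ h : α v = a ∨ α v = b, (G.induce {v | α v = a ∨ α v = b}).Reachable x ⟨v, h⟩) →
      β v = Equiv.swap a b (α v)) ∧
    ((¬ ∃ h : α v = a ∨ α v = b, (G.induce {v | α v = a ∨ α v = b}).Reachable x ⟨v, h⟩) → β v = α v)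

def KempeEquiv {G : SimpleGraph V} {m : ℕ} (α β : G.Coloring (Fin m)) : Prop :=
  Relation.ReflTransGen KempeChange α β

theorem four : ∀ (n a b c d : ℕ) (p q r s : ℤ), a ≤ n → (p = 1 ∨ p = -1) → (q = 1 ∨ q = -1) →
    (r = 1 ∨ r = -1) → (s = 1 ∨ s = -1) → p * 5 ^ a + q * 5 ^ b + r * 5 ^ c + s * 5 ^ d = 0 →
    p * 5 ^ a + q * 5 ^ b = 0 ∨ p * 5 ^ a + r * 5 ^ c = 0 ∨ p * 5 ^ a + s * 5 ^ d = 0 := by
  intro n
  induction n with
  | zero =>
    intro a b c d p q r s h hp hq hr hs
    obtain rfl : a = 0 := by omega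
    rcases b with _ | b <;> rcases c with _ | c <;> rcases d with _ | d <;>
      simp only [pow_succ, pow_zero] <;> rcases hp with rfl | rfl <;> rcases hq with rfl | rfl <;>
      rcases hr with rfl | rfl <;> rcases hs with rfl | rfl <;> omega
  | succ n ih =>
    intro a b c d p q r s h hp hq hr hs
    have := ih (a - 1) (b - 1) (c - 1) (d - 1) p q r s (by omega) hp hq hr hs
    rcases a with _ | a <;> rcases b with _ | b <;> rcases c with _ | c <;> rcases d with _ | d <;>
      simp only [pow_succ, pow_zero, Nat.add_sub_cancel] at * <;>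
      rcases hp with rfl | rfl <;> rcases hq with rfl | rfl <;>
      rcases hr with rfl | rfl <;> rcases hs with rfl | rfl <;> omega

variable {m : ℕ}

def sg (i j : Fin m) : ℤ := if i < j then 1 else -1

def ex (i j : Fin m) (e : Fin 2) : ℕ := 2 * (min i.val j.val * m + max i.val j.val) + e

def lab (i j : Fin m) (e : Fin 2) : ℤ := sg i j * 5 ^ ex i j e

theorem sg1 (i j : Fin m) : sg i j = 1 ∨ sg i j = -1 := by unfold sg; split_ifs <;> simp

theorem lab_symm {i j : Fin m} (h : i ≠ j) (e : Fin 2) : lab j i e = -lab i j e := by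
  have : sg j i = -sg i j := by unfold sg; split_ifs <;> omega
  rw [lab, lab, this, ex, ex, min_comm, max_comm]; ring

theorem lab_inj {i j k l : Fin m} {e f : Fin 2} (_h1 : i ≠ j) (_h2 : k ≠ l) (h : lab i j e = lab k l f) :
    i = k ∧ j = l := by
  have hp : (0 : ℤ) < 5 ^ ex i j e := by positivity
  have hq : (0 : ℤ) < 5 ^ ex k l f := by positivity
  have hs : sg i j = sg k l ∧ (5 : ℤ) ^ ex i j e = 5 ^ ex k l f := by
    unfold lab at h
    rcases sg1 i j with a | a <;> rcases sg1 k l with b | b <;> rw [a, b] at h ⊢ <;> omega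
  have he : ex i j e = ex k l f := pow_right_injective₀ (by norm_num) (by norm_num) hs.2
  have h3 : min i.val j.val * m + max i.val j.val = min k.val l.val * m + max k.val l.val := by
    unfold ex at he; omega
  have h4 : max i.val j.val = max k.val l.val := by
    have := congrArg (· % m) h3
    simp only [Nat.mul_add_mod_self_right] at this
    rwa [Nat.mod_eq_of_lt (by omega), Nat.mod_eq_of_lt (by omega)] at this
  have h5 : min i.val j.val = min k.val l.val :=
    Nat.eq_of_mul_eq_mul_right (m := m) (by omega) (by omega)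
  have h6 := hs.1
  unfold sg at h6
  split_ifs at h6 <;> omega

def B (m : ℕ) : ℕ := 5 ^ (2 * (m * m + m) + 1)

def N (m : ℕ) : ℕ := 10 * B m + 1

instance : NeZero (N m) := ⟨by simp [N]⟩

theorem lab_le (i j : Fin m) (e : Fin 2) : |lab i j e| ≤ B m ∧ lab i j e % 2 = 1 := by
  have h1 : (5 : ℤ) ^ ex i j e ≤ B m := by
    rw [B]; push_cast
    refine pow_le_pow_right₀ (by norm_num) ?_
    have := Nat.mul_le_mul_right m (show min i.val j.val ≤ m by omega)
    unfold ex; omega
  have h2 : (5 : ℤ) ^ ex i j e % 2 = 1 := Int.odd_iff.1 (Odd.pow (by decide))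
  have hp : (0 : ℤ) < 5 ^ ex i j e := by positivity
  rw [abs_le, lab]
  rcases sg1 i j with a | a <;> rw [a] <;> omega

theorem unit10 : IsUnit (10 : ZMod (N m)) := by
  refine IsUnit.of_mul_eq_one (-(B m : ZMod (N m))) ?_
  have : ((10 * B m + 1 : ℕ) : ZMod (N m)) = 0 := ZMod.natCast_self _
  push_cast at this
  linear_combination -this

theorem unit2 : IsUnit (2 : ZMod (N m)) :=
  isUnit_of_mul_isUnit_left (y := 5) (by convert unit10 using 1; norm_num)

theorem unit5 : IsUnit (5 : ZMod (N m)) :=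
  isUnit_of_mul_isUnit_left (y := 2) (by convert unit10 using 1; norm_num)

def G (m : ℕ) : SimpleGraph (Fin m × ZMod (N m)) where
  Adj u v := u.1 ≠ v.1 ∧ ∃ e, 2 * (v.2 - u.2) = lab u.1 v.1 e
  symm := ⟨fun u v ⟨h, e, he⟩ => ⟨h.symm, e, by rw [lab_symm h]; push_cast; linear_combination -he⟩⟩
  loopless := ⟨fun u h => h.1 rfl⟩

theorem noC4 {u v w x : Fin m × ZMod (N m)} (h1 : (G m).Adj u v) (h2 : (G m).Adj v w)
    (h3 : (G m).Adj w x) (h4 : (G m).Adj x u) : u = w ∨ v = x := by
  obtain ⟨n1, e1, h1⟩ := h1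
  obtain ⟨n2, e2, h2⟩ := h2
  obtain ⟨n3, e3, h3⟩ := h3
  obtain ⟨n4, e4, h4⟩ := h4
  have hs : lab u.1 v.1 e1 + lab v.1 w.1 e2 + lab w.1 x.1 e3 + lab x.1 u.1 e4 = 0 := by
    refine Int.eq_zero_of_abs_lt_dvd (m := N m) ((ZMod.intCast_zmod_eq_zero_iff_dvd _ _).1 ?_) ?_
    · push_cast; linear_combination -h1 - h2 - h3 - h4
    · have a1 := abs_le.1 (lab_le u.1 v.1 e1).1
      have a2 := abs_le.1 (lab_le v.1 w.1 e2).1
      have a3 := abs_le.1 (lab_le w.1 x.1 e3).1
      have a4 := abs_le.1 (lab_le x.1 u.1 e4).1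
      have hN : N m = 10 * B m + 1 := rfl
      rw [abs_lt]; omega
  rcases four _ _ _ _ _ _ _ _ _ le_rfl (sg1 _ _) (sg1 _ _) (sg1 _ _) (sg1 _ _) hs with h | h | h
  · have h : lab u.1 v.1 e1 = lab w.1 v.1 e2 := by rw [lab_symm n2]; exact eq_neg_of_add_eq_zero_left h
    refine .inl (Prod.ext (lab_inj n1 n2.symm h).1 (unit2.mul_left_cancel ?_))
    rw [h, lab_symm n2] at h1
    push_cast at h1
    linear_combination -h1 - h2
  · have h : lab u.1 v.1 e1 = lab x.1 w.1 e3 := by rw [lab_symm n3]; exact eq_neg_of_add_eq_zero_left h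
    exact absurd (lab_inj n1 n3.symm h).2 n2
  · have h : lab u.1 v.1 e1 = lab u.1 x.1 e4 := by rw [lab_symm n4]; exact eq_neg_of_add_eq_zero_left h
    refine .inr (Prod.ext (lab_inj n1 n4.symm h).2 (unit2.mul_left_cancel ?_))
    rw [h, lab_symm n4] at h1
    push_cast at h1
    linear_combination h1 + h4

def c3 (v : Fin m × ZMod (N m)) : ℕ := if 3 * v.2.val < N m then 0 else if 3 * v.2.val < 2 * N m then 1 else 2

theorem c3_lt (v : Fin m × ZMod (N m)) : c3 v < 3 := by unfold c3; split_ifs <;> omega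

theorem c3_ne {u v : Fin m × ZMod (N m)} (h : (G m).Adj u v) : c3 u ≠ c3 v := by
  obtain ⟨-, e, h⟩ := h
  obtain ⟨k, hk⟩ : (N m : ℤ) ∣ 2 * ((v.2.val : ℤ) - u.2.val) - lab u.1 v.1 e :=
    (ZMod.intCast_zmod_eq_zero_iff_dvd _ _).1 (by push_cast; simp [h])
  have a := lab_le u.1 v.1 e
  rw [abs_le] at a
  have hu := ZMod.val_lt u.2
  have hv := ZMod.val_lt v.2
  have hN : N m = 10 * B m + 1 := rfl
  have k1 : k < 3 := by nlinarith
  have k2 : -3 < k := by nlinarith
  unfold c3
  interval_cases k <;> split_ifs <;> omega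

theorem reach {a b : Fin m} (hab : a ≠ b) (S : Set (Fin m × ZMod (N m)))
    (hS : ∀ v, v ∈ S ↔ v.1 = a ∨ v.1 = b) (x y : S) : ((G m).induce S).Reachable x y := by
  obtain ⟨t, ht⟩ := (unit2 (m := m)).exists_right_inv
  let A : ZMod (N m) → S := fun z => ⟨(a, z), (hS _).2 (.inl rfl)⟩
  let A' : ZMod (N m) → S := fun z => ⟨(b, z), (hS _).2 (.inr rfl)⟩
  have adj : ∀ z e, ((G m).induce S).Reachable (A z) (A' (z + t * lab a b e)) := fun z e =>
    Adj.reachable ⟨hab, e, by
      change 2 * (z + t * lab a b e - z) = lab a b e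
      linear_combination (lab a b e : ZMod (N m)) * ht⟩
  obtain ⟨d, hd⟩ : IsUnit (t * ((lab a b 1 : ZMod (N m)) - lab a b 0)) := by
    have : t * ((lab a b 1 : ZMod (N m)) - lab a b 0) = sg a b * 5 ^ ex a b 0 * 2 := by
      have : ex a b 1 = ex a b 0 + 1 := rfl
      simp only [lab, this]; push_cast
      linear_combination (2 * sg a b * 5 ^ ex a b 0 : ZMod (N m)) * ht
    rw [this]
    refine (IsUnit.mul ?_ (unit5.pow _)).mul unit2
    rcases sg1 a b with h | h <;> simp [h]
  have st : ∀ k : ℕ, ((G m).induce S).Reachable (A 0) (A (k * d)) := fun k => by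
    induction k with
    | zero => simp
    | succ k ih =>
      refine (ih.trans (adj _ 1)).trans (Reachable.symm ?_)
      convert adj (((k + 1 : ℕ) : ZMod (N m)) * d) 0 using 2
      rw [hd]; push_cast; ring
  have a0 : ∀ z, ((G m).induce S).Reachable (A 0) (A z) := fun z => by
    simpa using st (z * ↑d⁻¹).val
  have all : ∀ y : S, ((G m).induce S).Reachable (A 0) y := by
    rintro ⟨⟨c, z⟩, h⟩
    rcases (hS _).1 h with rfl | rfl
    · exact a0 z
    · simpa using (a0 (z - t * lab a c 0)).trans (adj _ 0)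
  exact (all x).symm.trans (all y)

theorem result (c : ℕ) : ∃ (k : ℕ) (V : Type) (_ : Fintype V) (G : SimpleGraph V),
    1 ≤ k ∧ IsEmpty (cycleGraph 4 ↪g G) ∧ G.Colorable k ∧
    ∃ α β : G.Coloring (Fin (k + c)), ¬ KempeEquiv α β := by
  refine ⟨4, _, inferInstance, G (4 + c), by norm_num, ⟨fun f => ?_⟩,
    ⟨Coloring.mk (fun v => ⟨c3 v, by have := c3_lt v; omega⟩) fun h e => c3_ne h (congrArg Fin.val e)⟩,
    Coloring.mk Prod.fst fun h => h.1,
    Coloring.mk (fun v => ⟨c3 v, by have := c3_lt v; omega⟩) fun h e => c3_ne h (congrArg Fin.val e),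
    fun h => ?_⟩
  · rcases noC4 (f.map_rel_iff.2 (by decide : (cycleGraph 4).Adj 0 1))
      (f.map_rel_iff.2 (by decide : (cycleGraph 4).Adj 1 2))
      (f.map_rel_iff.2 (by decide : (cycleGraph 4).Adj 2 3))
      (f.map_rel_iff.2 (by decide : (cycleGraph 4).Adj 3 0)) with h | h <;>
    exact absurd (f.injective h) (by decide)
  · have inv : ∀ β : (G (4 + c)).Coloring (Fin (4 + c)),
        KempeEquiv (G := G (4 + c)) (Coloring.mk Prod.fst fun h => h.1) β →
        ∃ π : Equiv.Perm (Fin (4 + c)), ∀ v, β v = π v.1 := fun β h => by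
      induction h with
      | refl => exact ⟨1, fun _ => rfl⟩
      | @tail α β _ h ih =>
        obtain ⟨π, hπ⟩ := ih
        obtain ⟨a, b, x, hab, h⟩ := h
        refine ⟨Equiv.swap a b * π, fun v => ?_⟩
        rw [Equiv.Perm.mul_apply, ← hπ]
        by_cases hv : α v = a ∨ α v = b
        · exact (h v).1 ⟨hv, reach (π.symm.injective.ne hab) _
            (fun v => by simp [hπ, Equiv.eq_symm_apply]) _ _⟩
        · rw [(h v).2 fun ⟨h, _⟩ => hv h, Equiv.swap_apply_of_ne_of_ne (not_or.1 hv).1 (not_or.1 hv).2]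
    obtain ⟨π, hπ⟩ := inv _ h
    have := congrArg Fin.val (hπ (π.symm ⟨3, by omega⟩, 0))
    rw [Equiv.apply_symm_apply] at this
    exact (c3_lt (π.symm ⟨3, by omega⟩, 0)).ne this

end Pool.Agent.Results.MP_de689f_co.C4
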